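import Pool.Agent.Helper56.GWA.TRGa
import Pool.Agent.Helper37.GWA.RSD
import Pool.Agent.Helper26.GWA.RESB
import Pool.Agent.Helper67.GWA.TRA2
import Pool.Agent.Helper10.GWA.Cyc

/-!
# The link at the prime `7` (core, with the results of TRB and TRC as hypotheses)
-/

set_option linter.unusedSectionVars false

namespace GWA

namespace TRG

variable {K : Type} [NormedField K] [Algebra GaussianInt K] [NeZero (2 : K)] [DecidableEq K]
  {π : GaussianInt} {A : Set (FLD K π).Sys}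

section
variable (h : LocHyp K π) (hπq : Associated π (7 : GaussianInt))
include h hπq

theorem odd7 : ¬ π ∣ 2 := by
  rw [dvd_iff h hπq]
  rintro ⟨h1, -⟩
  revert h1
  decide

theorem norm_two' : ‖(2 : K)‖ = 1 := h.norm_two (odd7 h hπq)

theorem norm_four' : ‖(4 : K)‖ = 1 := by
  have : (4 : K) = 2 * 2 := by norm_num
  rw [this, norm_mul, norm_two' h hπq, one_mul]

theorem sqrt7 {x : K} (hx : ‖x - 1‖ < 1) : ∃ y : K, y ^ 2 = x ∧ y ≠ 0 := by
  obtain ⟨y, hy, hy1⟩ := h.sqrt (x := x) (by rw [norm_four' h hπq]; exact hx)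
  refine ⟨y, hy, ?_⟩
  rintro rfl
  have : x = 0 := by rw [← hy]; ring
  rw [this, zero_sub, norm_neg, norm_one] at hx
  exact lt_irrefl _ hx

/-- scaling: a point of `E d` with residue `4` in the second coordinate gives `d` a square -/
theorem mem_of_res {F e : E ((1 : Kˣ) : K)} (hA : (FLD K π).LStable A)
    (hF0 : F ≠ 0) (he0 : e ≠ 0) (hF : ‖nx F - II K‖ < 1) (he : ‖nx e - 4‖ < 1)
    (hC : Cl A 1 F e) {d : Kˣ} {P Q : E (d : K)} (hP0 : P ≠ 0) (hQ0 : Q ≠ 0)
    (hP : ‖nx P - II K‖ < 1) (hQ : ‖nx Q - 4‖ < 1) : (⟨d, P, Q⟩ : (FLD K π).Sys) ∈ A := by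
  have hodd := odd7 h hπq
  have hd := d.ne_zero
  -- `d` is a square
  have n4 := norm_four' h hπq
  have hff : ‖ff (nx Q) / 4 - 1‖ < 1 := by
    have c4 := Cg.num h 4
    have cQ : Cg (nx Q) 4 := Cg.of_lt h c4.l hQ
    have c1 : Cg (ff (nx Q)) (4 * 4 * 4 - 4) := by
      have := ((cQ.mul h cQ).mul h cQ).sub h cQ
      have e : ff (nx Q) = nx Q * nx Q * nx Q - nx Q := by unfold ff; ring
      rw [e]; exact this
    have e1 : ff (nx Q) / 4 - 1 = (ff (nx Q) - 4) / 4 := by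
      have : (4 : K) ≠ 0 := four_ne'
      field_simp
    rw [e1, norm_div, n4, div_one]
    have h56 := int_lt h hπq 56 (by norm_num)
    have h60 := lt_add h c1.s h56
    have e2 : ff (nx Q) - 4 = ff (nx Q) - (4 * 4 * 4 - 4) + ((56 : ℤ) : K) := by
      push_cast; ring
    rw [e2]
    exact h60
  obtain ⟨w, hw, hw0⟩ := sqrt7 h hπq hff
  have hy := sq_ff_nx hd Q
  have h40 : (4 : K) ≠ 0 := four_ne'
  have h20 : (2 : K) ≠ 0 := two_ne_zero
  have hfw : ff (nx Q) = (2 * w) ^ 2 := by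
    rw [mul_pow, hw]; field_simp; norm_num
  have hff0 : ff (nx Q) ≠ 0 := by
    rw [hfw]; positivity
  have hyc : yc Q ≠ 0 := (yc_ne_iff hd Q).2 hff0
  set c : K := yc Q / (d : K) / (2 * w) with hcdef
  have hc : c ≠ 0 := by
    rw [hcdef]; exact div_ne_zero (div_ne_zero hyc hd) (mul_ne_zero h20 hw0)
  have hdc : (d : K) = c ^ 2 := by
    rw [hcdef, div_pow, hy, hfw]
    field_simp
  have hd1 : (RingHom.id K) (d : K) = ((1 : Kˣ) : K) * c ^ 2 := by
    rw [Units.val_one, one_mul]; exact hdc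
  set P1 := tr (RingHom.id K) hc (1 : Kˣ).ne_zero hd1 P with hP1
  set Q1 := tr (RingHom.id K) hc (1 : Kˣ).ne_zero hd1 Q with hQ1
  have hnx : ∀ R : E (d : K), nx (tr (RingHom.id K) hc (1 : Kˣ).ne_zero hd1 R) = nx R := by
    intro R
    unfold nx
    rw [xc_tr, RingHom.id_apply, Units.val_one, div_one, ← hdc]
  have hne : ∀ R : E (d : K), R ≠ 0 → tr (RingHom.id K) hc (1 : Kˣ).ne_zero hd1 R ≠ 0 :=
    fun R hR => tr_ne _ _ _ _ hR
  have hI1 : ‖II K‖ = 1 := LocHyp.norm_II K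
  have key : ∀ {X : K} {R S : E ((1 : Kˣ) : K)}, ‖X‖ ≤ 1 → R ≠ 0 → S ≠ 0 → ‖nx R - X‖ < 1 →
      ‖nx S - X‖ < 1 → ∃ s : GaussianInt, s * s = 1 ∧ R - s • S ∈ nb π ((1 : Kˣ) : K) 0 := by
    intro X R S hX hR hS hRX hSX
    have cR := Cg.of_lt h hX hRX
    have cS := Cg.of_lt h hX hSX
    have hRS : ‖nx R - nx S‖ < 1 := by
      have : nx R - nx S = (nx R - X) - (nx S - X) := by ring
      rw [this]
      exact lt_sub h hRX hSX
    rcases h.res_diff hodd (1 : Kˣ).ne_zero hR hS cR.l cS.l hRS with h1 | h1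
    · exact ⟨1, by norm_num, by rwa [one_smul]⟩
    · refine ⟨-1, by norm_num, ?_⟩
      rw [neg_smul, one_smul, sub_neg_eq_add]
      exact h1
  obtain ⟨s1, hs1, hn1⟩ := key hI1.le (hne P hP0) hF0 (by rw [hnx]; exact hP) hF
  obtain ⟨s2, hs2, hn2⟩ := key (h.norm_ofNat_le 4) (hne Q hQ0) he0 (by rw [hnx]; exact hQ) he
  have hC' := h.Cl_aff hA s1 0 0 s2 0 0 (by
    rw [mul_zero, sub_zero]
    exact IsUnit.of_mul_eq_one (s1 * s2) (by
      calc s1 * s2 * (s1 * s2) = (s1 * s1) * (s2 * s2) := by ring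
        _ = 1 := by rw [hs1, hs2, one_mul])) hC
  simp only [zero_smul, add_zero, zero_add] at hC'
  have hmem : Cl A 1 P1 Q1 := h.Cl_congr hn1 hn2 hC'
  -- scale back
  have hc' : c⁻¹ ≠ 0 := inv_ne_zero hc
  have hd2 : (RingHom.id K) ((1 : Kˣ) : K) = (d : K) * c⁻¹ ^ 2 := by
    rw [RingHom.id_apply, Units.val_one, hdc, inv_pow, mul_inv_cancel₀ (pow_ne_zero 2 hc)]
  have hfin := h.Cl_scale hA hc' hd2 hmem
  have hback : ∀ R : E (d : K), R ≠ 0 → tr (RingHom.id K) hc' d.ne_zero hd2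
      (tr (RingHom.id K) hc (1 : Kˣ).ne_zero hd1 R) = R := by
    intro R hR
    apply pt_ext (tr_ne _ _ _ _ (hne R hR)) hR
    · rw [xc_tr, xc_tr, RingHom.id_apply, RingHom.id_apply]
      field_simp
    · rw [yc_tr, yc_tr, RingHom.id_apply, RingHom.id_apply]
      field_simp
  rw [hP1, hQ1, hback P hP0, hback Q hQ0] at hfin
  exact hfin P Q (by rw [sub_self]; exact zero_mem_nbh _ _ _)
    (by rw [sub_self]; exact zero_mem_nbh _ _ _)

/-- all points with the residues `(2 + i, 1 - 3 i)` are in `A` -/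
theorem mem_of_res' {F e : E ((1 : Kˣ) : K)} (hA : (FLD K π).LStable A)
    (hF0 : F ≠ 0) (he0 : e ≠ 0) (hF : ‖nx F - II K‖ < 1) (he : ‖nx e - 4‖ < 1)
    (hC : Cl A 1 F e) {d : Kˣ} {P Q : E (d : K)} (hP0 : P ≠ 0) (hQ0 : Q ≠ 0)
    (hP : ‖nx P - (2 + II K)‖ < 1) (hQ : ‖nx Q - (1 - 3 * II K)‖ < 1) :
    (⟨d, P, Q⟩ : (FLD K π).Sys) ∈ A := by
  have hodd := odd7 h hπq
  have hd := d.ne_zero
  have hI := Cg.I h
  have cP := Cg.of_lt h (int_add h (Cg.num h 2).l hI.l) hP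
  have cQ := Cg.of_lt h (int_sub h (Cg.one h).l (int_mul h (Cg.num h 3).l hI.l)) hQ
  have hPn : P ∉ nb π (d : K) 0 := (h.not_mem_nb_iff hd).2 ⟨hP0, cP.l⟩
  have hQn : Q ∉ nb π (d : K) 0 := (h.not_mem_nb_iff hd).2 ⟨hQ0, cQ.l⟩
  apply hA.cl
  intro n
  obtain ⟨t', hcl, t'', hS⟩ := dens_of_infinite (K := K)
    (c := (‖algebraMap GaussianInt K π‖)⁻¹) (fun d hd n => h.nb_infinite hd n)
    (⟨d, P, Q⟩ : (FLD K π).Sys) n
  refine ⟨t', ?_, hcl⟩
  obtain ⟨P', Q', rfl, hP', hQ'⟩ := hcl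
  have hanti : nb π (d : K) n ⊆ nb π (d : K) 0 := nbh_anti h.one_lt_inv.le _ (Nat.zero_le n)
  obtain ⟨hP'0, -, -, hP's⟩ := h.res_conv hodd hd hPn (hanti hP')
  obtain ⟨hQ'0, -, -, hQ's⟩ := h.res_conv hodd hd hQn (hanti hQ')
  have hP2 : ‖nx P' - (2 + II K)‖ < 1 := by
    have : nx P' - (2 + II K) = (nx P' - nx P) + (nx P - (2 + II K)) := by ring
    rw [this]
    exact lt_add h hP's hP
  have hQ2 : ‖nx Q' - (1 - 3 * II K)‖ < 1 := by
    have : nx Q' - (1 - 3 * II K) = (nx Q' - nx Q) + (nx Q - (1 - 3 * II K)) := by ring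
    rw [this]
    exact lt_add h hQ's hQ
  have hS' : SRel t'' (⟨d, P', Q'⟩ : Σ d : Kˣ, E (d : K) × E (d : K)) := hS
  obtain ⟨-, -, h3, h4, -, -, -, -, -, -, -, h5, h6⟩ := (SRel.symm hS').elim
  obtain ⟨r1, r2⟩ := sig_res h hπq hP2 hQ2
  obtain ⟨d2, P2, Q2⟩ := t''
  have hm : (⟨d2, P2, Q2⟩ : (FLD K π).Sys) ∈ A := by
    apply mem_of_res h hπq hA hF0 he0 hF he hC h3 h4
    · have := r1.s
      rw [← h5] at this
      exact this
    · have := r2.s
      rw [← h6] at this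
      exact this
  exact hA.sig _ _ hS hm

/-- points with integral residue are killed by `4` -/
theorem four_smul_mem {P : E ((1 : Kˣ) : K)} (hP0 : P ≠ 0) {n : ℤ} (hn : ‖nx P - n‖ < 1) :
    (4 : GaussianInt) • P ∈ nb π ((1 : Kˣ) : K) 0 := by
  have hodd := odd7 h hπq
  have hd : ((1 : Kˣ) : K) ≠ 0 := (1 : Kˣ).ne_zero
  have hdisc : ∀ {x : K}, ‖x‖ < 1 → ‖x‖ ≤ ‖algebraMap GaussianInt K π‖ ^ (2 * 0 + 1) := by
    intro x hx
    have := h.disc (n := 0) (x := x) (by rwa [zpow_zero])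
    simpa using this
  -- points near the 2-torsion
  have h2 : ∀ {R : E ((1 : Kˣ) : K)}, R ≠ 0 → ‖nx R‖ < 1 ∨ ‖nx R - 1‖ < 1 ∨ ‖nx R + 1‖ < 1 →
      (2 : GaussianInt) • R ∈ nb π ((1 : Kˣ) : K) 0 := by
    intro R hR hc
    have aux : ∀ S : E ((1 : Kˣ) : K), (2 : GaussianInt) • S = 0 → R - S ∈ nb π ((1 : Kˣ) : K) 0 →
        (2 : GaussianInt) • R ∈ nb π ((1 : Kˣ) : K) 0 := by
      intro S hS hRS
      have := h.nb_smul 1 0 (2 : GaussianInt) hRS
      rwa [smul_sub, hS, sub_zero] at this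
    have tT : (2 : GaussianInt) • T (1 : Kˣ).ne_zero = 0 := two_smul_T (K := K) 1
    rcases hc with hc | hc | hc
    · apply aux (T₀ hd)
      · rw [← lam_smul_T (K := K) 1, smul_comm, tT, smul_zero]
      · exact (h.near_T₀_iff hd hR 0).2 (hdisc hc)
    · exact aux _ tT ((h.near_T_iff hodd hd hR 0).2 (hdisc hc))
    · apply aux (gi • T (1 : Kˣ).ne_zero)
      · rw [smul_comm, tT, smul_zero]
      · exact (h.near_giT_iff hodd 1 hR 0).2 (hdisc hc)
  have h4 : ∀ R : E ((1 : Kˣ) : K), (4 : GaussianInt) • R = (2 : GaussianInt) • (R + R) := by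
    intro R
    have : (4 : GaussianInt) = 2 + 2 := by norm_num
    rw [this, add_smul, smul_add]
  -- reduce `n` modulo `7`
  set r := n % 7 with hr
  have hr0 : 0 ≤ r := Int.emod_nonneg _ (by norm_num)
  have hr7 : r < 7 := Int.emod_lt_of_pos _ (by norm_num)
  have hnr : ‖((n - r : ℤ) : K)‖ < 1 := int_lt h hπq _ (Int.dvd_self_sub_emod)
  have hPr : ‖nx P - (r : K)‖ < 1 := by
    have : nx P - (r : K) = (nx P - n) + ((n - r : ℤ) : K) := by push_cast; ring
    rw [this]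
    exact lt_add h hn hnr
  have cr : Cg (nx P) (r : K) := Cg.of_lt h (h.norm_intCast_le r) hPr
  clear_value r
  have h2P : (2 : GaussianInt) • P ∈ nb π ((1 : Kˣ) : K) 0 →
      (4 : GaussianInt) • P ∈ nb π ((1 : Kˣ) : K) 0 := by
    intro hh
    have := h.nb_smul 1 0 (2 : GaussianInt) hh
    rw [smul_smul] at this
    have e : (2 : GaussianInt) * 2 = 4 := by norm_num
    rwa [e] at this
  have c1 := Cg.one h
  have c4 := Cg.num h 4
  have hdbl : ∀ N : ℤ, N = 4 * (r ^ 3 - r) → ¬ (7 : ℤ) ∣ N →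
      ((7 : ℤ) ∣ r ^ 2 + 2 * r - 1 ∨ (7 : ℤ) ∣ r ^ 2 - 2 * r - 1) →
      (4 : GaussianInt) • P ∈ nb π ((1 : Kˣ) : K) 0 := by
    intro N hN hN7 hor
    have cf : Cg (4 * ff (nx P)) (N : K) := by
      have := c4.mul h (((cr.mul h cr).mul h cr).sub h cr)
      have e1 : (4 : K) * ff (nx P) = 4 * (nx P * nx P * nx P - nx P) := by unfold ff; ring
      have e2 : (N : K) = 4 * ((r : K) * r * r - r) := by rw [hN]; push_cast; ring
      rw [e1, e2]
      exact this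
    have nf := cf.norm_one h (int_eq h hπq _ hN7)
    have hff0 : ff (nx P) ≠ 0 := by
      intro h0
      rw [h0, mul_zero, norm_zero] at nf
      exact zero_ne_one nf
    obtain ⟨hPP0, hPP⟩ := nx_double hd hP0 hff0
    have h4f : 4 * ff (nx P) ≠ 0 := mul_ne_zero four_ne' hff0
    rw [h4]
    apply h2 hPP0
    right
    rcases hor with hor | hor
    · right
      have e : nx (P + P) + 1 = (nx P ^ 2 + 2 * nx P - 1) ^ 2 / (4 * ff (nx P)) := by
        rw [eq_div_iff h4f, add_mul, hPP]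
        unfold ff; ring
      rw [e, norm_div, nf, div_one, norm_pow]
      have c : Cg (nx P ^ 2 + 2 * nx P - 1) ((r ^ 2 + 2 * r - 1 : ℤ) : K) := by
        have := ((cr.mul h cr).add h ((Cg.num h 2).mul h cr)).sub h c1
        convert this using 1
        · ring
        · push_cast; ring
      have hlt : ‖nx P ^ 2 + 2 * nx P - 1‖ < 1 := by
        have h7 := int_lt h hπq _ hor
        have := lt_add h c.s h7
        rwa [sub_add_cancel] at this
      exact pow_lt_one₀ (norm_nonneg _) hlt two_ne_zero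
    · left
      have e : nx (P + P) - 1 = (nx P ^ 2 - 2 * nx P - 1) ^ 2 / (4 * ff (nx P)) := by
        rw [eq_div_iff h4f, sub_mul, hPP]
        unfold ff; ring
      rw [e, norm_div, nf, div_one, norm_pow]
      have c : Cg (nx P ^ 2 - 2 * nx P - 1) ((r ^ 2 - 2 * r - 1 : ℤ) : K) := by
        have := ((cr.mul h cr).sub h ((Cg.num h 2).mul h cr)).sub h c1
        convert this using 1
        · ring
        · push_cast; ring
      have hlt : ‖nx P ^ 2 - 2 * nx P - 1‖ < 1 := by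
        have h7 := int_lt h hπq _ hor
        have := lt_add h c.s h7
        rwa [sub_add_cancel] at this
      exact pow_lt_one₀ (norm_nonneg _) hlt two_ne_zero
  have hcases : r = 0 ∨ r = 1 ∨ r = 2 ∨ r = 3 ∨ r = 4 ∨ r = 5 ∨ r = 6 := by omega
  rcases hcases with rfl | rfl | rfl | rfl | rfl | rfl | rfl
  · apply h2P; apply h2 hP0; left
    simpa using hPr
  · apply h2P; apply h2 hP0; right; left
    simpa using hPr
  · exact hdbl 24 (by norm_num) (by norm_num) (Or.inl (by norm_num))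
  · exact hdbl 96 (by norm_num) (by norm_num) (Or.inl (by norm_num))
  · exact hdbl 240 (by norm_num) (by norm_num) (Or.inr (by norm_num))
  · exact hdbl 480 (by norm_num) (by norm_num) (Or.inr (by norm_num))
  · apply h2P; apply h2 hP0; right; right
    have h7 := int_lt h hπq 7 (by norm_num)
    have := lt_add h hPr h7
    convert this using 2
    push_cast; ring

/-- the point with `x = 2 + i` is not killed by `4` -/
theorem four_smul_not_mem {Q : E ((1 : Kˣ) : K)} (hQ0 : Q ≠ 0) (hQ : nx Q = 2 + II K) :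
    (4 : GaussianInt) • Q ∉ nb π ((1 : Kˣ) : K) 0 := by
  have hd : ((1 : Kˣ) : K) ≠ 0 := (1 : Kˣ).ne_zero
  have hI := II_sq K
  have hI0 : II K ≠ 0 := II_ne
  have h2 : (2 : K) ≠ 0 := two_ne_zero
  have h5 : ‖(5 : K)‖ = 1 := by simpa using int_eq h hπq 5 (by norm_num)
  have h3 : ‖(3 : K)‖ = 1 := by simpa using int_eq h hπq 3 (by norm_num)
  have h50 : (5 : K) ≠ 0 := by intro h0; rw [h0, norm_zero] at h5; exact zero_ne_one h5
  have h30 : (3 : K) ≠ 0 := by intro h0; rw [h0, norm_zero] at h3; exact zero_ne_one h3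
  have hf : ff (nx Q) = 10 * II K := by
    rw [hQ]; unfold ff
    linear_combination (6 + II K) * hI
  have hf0 : ff (nx Q) ≠ 0 := by
    rw [hf]
    have : (10 : K) = 2 * 5 := by norm_num
    rw [this]
    exact mul_ne_zero (mul_ne_zero h2 h50) hI0
  obtain ⟨hQQ0, hQQ⟩ := nx_double hd hQ0 hf0
  have hx2 : nx (Q + Q) = 4 / 5 := by
    rw [hf, hQ] at hQQ
    rw [eq_div_iff h50]
    have h8 : (8 : K) * II K ≠ 0 := by
      have : (8 : K) = 2 * 2 * 2 := by norm_num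
      rw [this]
      exact mul_ne_zero (mul_ne_zero (mul_ne_zero h2 h2) h2) hI0
    apply mul_left_cancel₀ h8
    linear_combination hQQ + (II K ^ 2 + 8 * II K + 25) * hI
  have hf2 : ff (nx (Q + Q)) = -36 / 125 := by
    rw [hx2]; unfold ff
    have : (125 : K) = 5 ^ 3 := by norm_num
    rw [this]
    field_simp
    norm_num
  have hf20 : ff (nx (Q + Q)) ≠ 0 := by
    rw [hf2]
    have e1 : (36 : K) = 2 ^ 2 * 3 ^ 2 := by norm_num
    have e2 : (125 : K) = 5 ^ 3 := by norm_num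
    rw [e1, e2]
    exact div_ne_zero (neg_ne_zero.2 (mul_ne_zero (pow_ne_zero _ h2) (pow_ne_zero _ h30)))
      (pow_ne_zero _ h50)
  obtain ⟨hQ40, hQ4⟩ := nx_double hd hQQ0 hf20
  have h4 : (4 : GaussianInt) • Q = (Q + Q) + (Q + Q) := by
    have e1 : (4 : GaussianInt) = 1 + 1 + (1 + 1) := by norm_num
    rw [e1, add_smul, add_smul, one_smul]
  rw [h4, h.not_mem_nb_iff hd]
  refine ⟨hQ40, ?_⟩
  rw [hf2, hx2] at hQ4
  have h720 : ‖(720 : K)‖ = 1 := by simpa using int_eq h hπq 720 (by norm_num)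
  have e : nx (Q + Q + (Q + Q)) * 720 = -1681 := by
    have e2 : (125 : K) = 5 ^ 3 := by norm_num
    rw [e2] at hQ4
    field_simp at hQ4
    linear_combination -hQ4
  have e3 := congrArg norm e
  rw [norm_mul, h720, mul_one, norm_neg] at e3
  rw [e3]
  exact h.norm_ofNat_le 1681

end

end TRG

open TRG in
theorem LocHyp.link_seven_core {K : Type} [NormedField K] [Algebra GaussianInt K] [NeZero (2 : K)]
    [DecidableEq K] {π : GaussianInt} {A : Set (FLD K π).Sys}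
    (h : LocHyp K π) (hodd : ¬ π ∣ 2) (hA : (FLD K π).LStable A)
    (hπq : Associated π (7 : GaussianInt))
    (hRcint : ∀ n : ℤ, Rc A (n : K))
    (hClRc : ∀ {d : Kˣ} {P : E (d : K)}, P ∉ nb π (d : K) 0 → Rc A (nx P) → Cl A d P 0)
    (hRcCl : ∀ {d : Kˣ} {P : E (d : K)}, P ≠ 0 → ‖nx P‖ = 1 → ‖nx P - 1‖ = 1 →
      ‖nx P + 1‖ = 1 → Cl A d P 0 → Rc A (nx P)) :
    ∃ c : K, ‖c‖ ≤ 1 ∧ (∀ n : ℤ, ‖c - n‖ = 1) ∧ Rc A c := by
  have hd : ((1 : Kˣ) : K) ≠ 0 := (1 : Kˣ).ne_zero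
  have hI := II_sq K
  have hI0 : II K ≠ 0 := II_ne
  have h2 : (2 : K) ≠ 0 := two_ne_zero
  have cI := Cg.I h
  have h20 := norm_two' h hπq
  have h40 := norm_four' h hπq
  -- the point `e`
  obtain ⟨w, hw, hw0⟩ := sqrt7 h hπq (x := 15) (by
    have := int_lt h hπq 14 (by norm_num)
    convert this using 2
    push_cast; norm_num)
  obtain ⟨e, he0, he, -⟩ := exists_pt hd (x := (4 : K)) (s := 2 * w) (by
    rw [mul_pow, hw, Units.val_one]; unfold ff; norm_num)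
  have hen : e ∉ nb π ((1 : Kˣ) : K) 0 := (h.not_mem_nb_iff hd).2
    ⟨he0, by rw [he]; exact h.norm_ofNat_le 4⟩
  have hRe : Rc A (nx e) := by
    have := hRcint 4
    rw [he]
    simpa using this
  have hCe : Cl A 1 e 0 := hClRc hen hRe
  have hCe2 : Cl A 1 ((⟨1, -1⟩ : GaussianInt) • e) ((1 : GaussianInt) • e) :=
    (h.Cl_coprime hA isCoprime_one_right).1 hCe
  rw [one_smul] at hCe2
  set F : E ((1 : Kˣ) : K) := (⟨1, -1⟩ : GaussianInt) • e with hFdef
  have h4K : (4 : K) ≠ 0 := four_ne'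
  obtain ⟨hL0, hL⟩ := nx_lam_smul 1 he0 (by rw [he]; exact h4K)
  have hF : F = -(gi • (lam • e)) := by
    rw [hFdef, smul_smul, ← neg_smul]
    congr 1
  have hFx : nx F * 8 = 15 * II K := by
    have e1 : nx F = -((4 ^ 2 - 1) / (2 * II K * 4)) := by
      rw [hF, nx_neg, nx_gi_smul, hL, he]
    have e2 : (2 : K) * II K * 4 ≠ 0 := mul_ne_zero (mul_ne_zero h2 hI0) h4K
    rw [e1]
    field_simp
    linear_combination (-120 : K) * hI
  have hF0 : F ≠ 0 := by
    rw [hF]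
    exact neg_ne (gi_smul_ne 1 hL0)
  have hFI : ‖nx F - II K‖ < 1 := by
    have h8 : ‖(8 : K)‖ = 1 := by simpa using int_eq h hπq 8 (by norm_num)
    have e1 : ‖(nx F - II K) * 8‖ < 1 := by
      have : (nx F - II K) * 8 = 7 * II K := by linear_combination hFx
      rw [this]
      have h7 : ‖(7 : K)‖ < 1 := by simpa using int_lt h hπq 7 (by norm_num)
      exact lt_mul h h7 cI.l
    rwa [norm_mul, h8, mul_one] at e1
  have he4 : ‖nx e - 4‖ < 1 := by rw [he, sub_self, norm_zero]; exact one_pos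
  have key := fun {d : Kˣ} {P Q : E (d : K)} =>
    mem_of_res' h hπq hA hF0 he0 hFI he4 hCe2 (d := d) (P := P) (Q := Q)
  -- the points `Q₀`, `R₀`
  have h90 : (9 : K) ≠ 0 := by
    intro h0
    have : ‖(9 : K)‖ = 1 := by simpa using int_eq h hπq 9 (by norm_num)
    rw [h0, norm_zero] at this
    exact zero_ne_one this
  obtain ⟨w1, hw1, -⟩ := sqrt7 h hπq (x := -5 / 9) (by
    have e1 : (-5 / 9 - 1 : K) = -14 / 9 := by field_simp; norm_num
    have n9 : ‖(9 : K)‖ = 1 := by simpa using int_eq h hπq 9 (by norm_num)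
    have n14 : ‖(14 : K)‖ < 1 := by simpa using int_lt h hπq 14 (by norm_num)
    rw [e1, norm_div, n9, div_one, norm_neg]
    exact n14)
  obtain ⟨Q₀, hQ0, hQ, -⟩ := exists_pt hd (x := (2 + II K : K)) (s := (3 - 3 * II K) * w1) (by
    rw [mul_pow, hw1, Units.val_one]; unfold ff
    field_simp
    linear_combination (-99 - 9 * II K : K) * hI)
  obtain ⟨w2, hw2, -⟩ := sqrt7 h hπq (x := -27 + 21 * II K) (by
    have := norm_lt h hπq (-28) 21 (by norm_num) (by norm_num)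
    convert this using 2
    push_cast; ring)
  obtain ⟨R₀, hR0, hR, -⟩ := exists_pt hd (x := (1 - 3 * II K : K)) (s := w2) (by
    rw [hw2, Units.val_one]; unfold ff
    linear_combination (-27 + 27 * II K : K) * hI)
  have hQint : ‖nx Q₀‖ ≤ 1 := by
    rw [hQ]; exact int_add h (Cg.num h 2).l cI.l
  have hRint : ‖nx R₀‖ ≤ 1 := by
    rw [hR]; exact int_sub h (Cg.one h).l (int_mul h (Cg.num h 3).l cI.l)
  have hQn : Q₀ ∉ nb π ((1 : Kˣ) : K) 0 := (h.not_mem_nb_iff hd).2 ⟨hQ0, hQint⟩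
  have hRn : R₀ ∉ nb π ((1 : Kˣ) : K) 0 := (h.not_mem_nb_iff hd).2 ⟨hR0, hRint⟩
  have hCl : Cl A 1 Q₀ R₀ := by
    intro P' Q' hP' hQ'
    obtain ⟨a1, -, -, a2⟩ := h.res_conv hodd hd hQn hP'
    obtain ⟨b1, -, -, b2⟩ := h.res_conv hodd hd hRn hQ'
    exact key a1 b1 (by rwa [hQ] at a2) (by rwa [hR] at b2)
  -- the cyclic structure
  obtain ⟨g, a, -, hg, -, -⟩ := h.cyc hodd 1
  obtain ⟨α, hα⟩ := hg Q₀
  obtain ⟨β, hβ⟩ := hg R₀
  have hα' : α • g - Q₀ ∈ nb π ((1 : Kˣ) : K) 0 := by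
    have := neg_mem_nbh hα; rwa [neg_sub] at this
  have hβ' : β • g - R₀ ∈ nb π ((1 : Kˣ) : K) 0 := by
    have := neg_mem_nbh hβ; rwa [neg_sub] at this
  have hCl2 : Cl A 1 (α • g) (β • g) := h.Cl_congr hα' hβ' hCl
  have hα0 : α ≠ 0 := by
    rintro rfl
    rw [zero_smul, sub_zero] at hα
    exact hQn hα
  obtain ⟨γ, α', β', hαe, hβe, hco⟩ : ∃ γ α' β' : GaussianInt, α = α' * γ ∧ β = β' * γ ∧
      IsCoprime α' β' := by
    classical
    have hγ : EuclideanDomain.gcd α β ≠ 0 := fun h0 => hα0 (EuclideanDomain.gcd_eq_zero_iff.1 h0).1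
    obtain ⟨α', h1⟩ := EuclideanDomain.gcd_dvd_left α β
    obtain ⟨β', h2⟩ := EuclideanDomain.gcd_dvd_right α β
    refine ⟨EuclideanDomain.gcd α β, α', β', ?_, ?_, ?_⟩
    · rw [mul_comm]; exact h1
    · rw [mul_comm]; exact h2
    · refine ⟨EuclideanDomain.gcdA α β, EuclideanDomain.gcdB α β, ?_⟩
      apply mul_left_cancel₀ hγ
      have hb := EuclideanDomain.gcd_eq_gcd_ab α β
      rw [mul_one]
      calc EuclideanDomain.gcd α β * (EuclideanDomain.gcdA α β * α' +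
            EuclideanDomain.gcdB α β * β')
          = (EuclideanDomain.gcd α β * α') * EuclideanDomain.gcdA α β +
            (EuclideanDomain.gcd α β * β') * EuclideanDomain.gcdB α β := by ring
        _ = α * EuclideanDomain.gcdA α β + β * EuclideanDomain.gcdB α β := by rw [← h1, ← h2]
        _ = EuclideanDomain.gcd α β := hb.symm
  set P' := γ • g with hP'
  have hCl3 : Cl A 1 (α' • P') (β' • P') := by
    rw [hP', smul_smul, smul_smul, ← hαe, ← hβe]; exact hCl2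
  have hCl4 : Cl A 1 P' 0 := (h.Cl_coprime hA hco).2 hCl3
  have hQP : Q₀ - α' • P' ∈ nb π ((1 : Kˣ) : K) 0 := by
    rw [hP', smul_smul, ← hαe]; exact hα
  have hP'n : P' ∉ nb π ((1 : Kˣ) : K) 0 := by
    intro hc
    apply hQn
    have := h.nb_add hd 0 hQP (h.nb_smul 1 0 α' hc)
    rwa [sub_add_cancel] at this
  obtain ⟨hP'0, hP'int⟩ := (h.not_mem_nb_iff hd).1 hP'n
  have hnot : ∀ n : ℤ, ‖nx P' - n‖ = 1 := by
    intro n
    apply le_antisymm (int_sub h hP'int (h.norm_intCast_le n))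
    by_contra hlt
    push Not at hlt
    have h1 := four_smul_mem h hπq hP'0 hlt
    apply four_smul_not_mem h hπq hQ0 hQ
    have h2 := h.nb_add hd 0 (h.nb_smul 1 0 4 hQP) (h.nb_smul 1 0 α' h1)
    rwa [smul_comm α' (4 : GaussianInt) P', ← smul_add, sub_add_cancel] at h2
  refine ⟨nx P', hP'int, hnot, ?_⟩
  apply hRcCl hP'0 _ _ _ hCl4
  · simpa using hnot 0
  · simpa using hnot 1
  · simpa using hnot (-1)

end GWA
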