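import Pool.Agent.Helper56.GWA.TRGcore
import Pool.Agent.Helper15.WA.TRB
import Pool.Agent.Helper21.GWA.TRC

/-!
# GWA, module TRG: the link at the prime `7`
-/

namespace GWA

variable {K : Type} [NormedField K] [Algebra GaussianInt K] [NeZero (2 : K)] [DecidableEq K]
  {π : GaussianInt} {A : Set (FLD K π).Sys}

theorem LocHyp.link_seven (h : LocHyp K π) (hodd : ¬ π ∣ 2) (hA : (FLD K π).LStable A)
    (hNN : (FLD K π).NN ⊆ A) (hπq : Associated π (7 : GaussianInt)) :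
    ∃ c : K, ‖c‖ ≤ 1 ∧ (∀ n : ℤ, ‖c - n‖ = 1) ∧ Rc A c :=
  h.link_seven_core hodd hA hπq (h.Rc_int hodd hA hNN) (h.Cl_of_Rc hodd hA)
    (h.Rc_of_Cl hodd hA)

end GWA
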