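import Pool.Agent.Helper15.WA.LocDefs
import Pool.Agent.Helper10.GWA.LB
import Pool.Agent.Helper10.GWA.GCard
import Pool.Agent.Helper9.GWA.GNear

/-!
# Residue computations at the prime `7`
-/

set_option linter.unusedSectionVars false

namespace GWA

namespace TRG

variable {K : Type} [NormedField K] [Algebra GaussianInt K] {π : GaussianInt}

/-- congruence of integral elements -/
structure Cg (x y : K) : Prop where
  l : ‖x‖ ≤ 1
  r : ‖y‖ ≤ 1
  s : ‖x - y‖ < 1

section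
variable (h : LocHyp K π)
include h

theorem int_mul {x y : K} (hx : ‖x‖ ≤ 1) (hy : ‖y‖ ≤ 1) : ‖x * y‖ ≤ 1 := by
  rw [norm_mul]
  exact mul_le_one₀ hx (norm_nonneg _) hy

theorem int_add {x y : K} (hx : ‖x‖ ≤ 1) (hy : ‖y‖ ≤ 1) : ‖x + y‖ ≤ 1 :=
  (h.ultra _ _).trans (max_le hx hy)

theorem int_sub {x y : K} (hx : ‖x‖ ≤ 1) (hy : ‖y‖ ≤ 1) : ‖x - y‖ ≤ 1 :=
  (h.norm_sub_le _ _).trans (max_le hx hy)

theorem lt_mul {x y : K} (hx : ‖x‖ < 1) (hy : ‖y‖ ≤ 1) : ‖x * y‖ < 1 := by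
  rw [norm_mul]
  nlinarith [norm_nonneg x, norm_nonneg y]

theorem lt_mul' {x y : K} (hx : ‖x‖ ≤ 1) (hy : ‖y‖ < 1) : ‖x * y‖ < 1 := by
  rw [mul_comm]; exact lt_mul h hy hx

theorem lt_add {x y : K} (hx : ‖x‖ < 1) (hy : ‖y‖ < 1) : ‖x + y‖ < 1 :=
  (h.ultra _ _).trans_lt (max_lt hx hy)

theorem lt_sub {x y : K} (hx : ‖x‖ < 1) (hy : ‖y‖ < 1) : ‖x - y‖ < 1 :=
  (h.norm_sub_le _ _).trans_lt (max_lt hx hy)

theorem Cg.refl {x : K} (hx : ‖x‖ ≤ 1) : Cg x x := ⟨hx, hx, by simp⟩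

theorem Cg.num (n : ℕ) [n.AtLeastTwo] : Cg (OfNat.ofNat n : K) (OfNat.ofNat n : K) :=
  Cg.refl h (h.norm_ofNat_le n)

theorem Cg.one : Cg (1 : K) (1 : K) := Cg.refl h (by simp)

theorem Cg.I : Cg (II K) (II K) := Cg.refl h (by rw [LocHyp.norm_II])

theorem Cg.of_lt {x y : K} (hy : ‖y‖ ≤ 1) (hs : ‖x - y‖ < 1) : Cg x y := by
  refine ⟨?_, hy, hs⟩
  have : x = (x - y) + y := by ring
  rw [this]
  exact int_add h hs.le hy

theorem Cg.add {x y x' y' : K} (a : Cg x y) (b : Cg x' y') : Cg (x + x') (y + y') := by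
  refine ⟨int_add h a.l b.l, int_add h a.r b.r, ?_⟩
  have : x + x' - (y + y') = (x - y) + (x' - y') := by ring
  rw [this]
  exact lt_add h a.s b.s

theorem Cg.sub {x y x' y' : K} (a : Cg x y) (b : Cg x' y') : Cg (x - x') (y - y') := by
  refine ⟨int_sub h a.l b.l, int_sub h a.r b.r, ?_⟩
  have : x - x' - (y - y') = (x - y) - (x' - y') := by ring
  rw [this]
  exact lt_sub h a.s b.s

theorem Cg.mul {x y x' y' : K} (a : Cg x y) (b : Cg x' y') : Cg (x * x') (y * y') := by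
  refine ⟨int_mul h a.l b.l, int_mul h a.r b.r, ?_⟩
  have : x * x' - y * y' = (x - y) * x' + y * (x' - y') := by ring
  rw [this]
  exact lt_add h (lt_mul h a.s b.l) (lt_mul' h a.r b.s)

theorem Cg.trans {x y z : K} (a : Cg x y) (b : Cg y z) : Cg x z := by
  refine ⟨a.l, b.r, ?_⟩
  have : x - z = (x - y) + (y - z) := by ring
  rw [this]
  exact lt_add h a.s b.s

theorem Cg.norm_one {x y : K} (a : Cg x y) (hy : ‖y‖ = 1) : ‖x‖ = 1 := by
  have : x = y + (x - y) := by ring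
  rw [this, h.norm_sum_eq (by rw [hy]; exact a.s), hy]

/-- `x / z ≡ y` -/
theorem Cg.div {x y z : K} (hy : ‖y‖ ≤ 1) (hz : ‖z‖ = 1) (hs : ‖x - y * z‖ < 1) :
    Cg (x / z) y := by
  have hz0 : z ≠ 0 := by rintro rfl; simp at hz
  apply Cg.of_lt h hy
  have : x / z - y = (x - y * z) / z := by field_simp
  rw [this, norm_div, hz, div_one]
  exact hs

end

variable (h : LocHyp K π) (hπq : Associated π (7 : GaussianInt))
include h hπq

theorem dvd_iff (a : GaussianInt) : π ∣ a ↔ (7 : ℤ) ∣ a.re ∧ (7 : ℤ) ∣ a.im := by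
  rw [hπq.dvd_iff_dvd_left]
  have : (7 : GaussianInt) = ((7 : ℤ) : GaussianInt) := by norm_num
  rw [this]
  exact Zsqrtd.intCast_dvd 7 a

theorem norm_lt (a b : ℤ) (ha : (7 : ℤ) ∣ a) (hb : (7 : ℤ) ∣ b) : ‖(a : K) + b * II K‖ < 1 := by
  have := (h.norm_lt_one_iff (⟨a, b⟩ : GaussianInt)).2
    ((dvd_iff h hπq _).2 ⟨ha, hb⟩)
  rwa [LocHyp.algebraMap_eq] at this

theorem norm_eq (a b : ℤ) (hab : ¬ ((7 : ℤ) ∣ a ∧ (7 : ℤ) ∣ b)) : ‖(a : K) + b * II K‖ = 1 := by
  have := h.norm_eq_one (a := (⟨a, b⟩ : GaussianInt))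
    (fun hc => hab ((dvd_iff h hπq _).1 hc))
  rwa [LocHyp.algebraMap_eq] at this

theorem int_lt (a : ℤ) (ha : (7 : ℤ) ∣ a) : ‖(a : K)‖ < 1 := by
  have := norm_lt h hπq a 0 ha (by norm_num)
  simpa using this

theorem int_eq (a : ℤ) (ha : ¬ (7 : ℤ) ∣ a) : ‖(a : K)‖ = 1 := by
  have := norm_eq h hπq a 0 (fun hc => ha hc.1)
  simpa using this

/-- the computation of the involution at the residues `(2 + i, 1 - 3 i)` -/
theorem sig_res {x y : K} (hx : ‖x - (2 + II K)‖ < 1) (hy : ‖y - (1 - 3 * II K)‖ < 1) :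
    Cg (sx x y) (II K) ∧ Cg (sy x y) 4 := by
  have hI := II_sq K
  have cI := Cg.I h
  have c1 := Cg.one h
  have c2 := Cg.num h 2
  have c3 := Cg.num h 3
  have cx : Cg x (2 + II K) := Cg.of_lt h (int_add h c2.l cI.l) hx
  have cy : Cg y (1 - 3 * II K) :=
    Cg.of_lt h (int_sub h c1.l (int_mul h c3.l cI.l)) hy
  have cD : Cg (sD x y) (((11 : ℤ) : K) + ((-13 : ℤ) : K) * II K) := by
    have : Cg (3 * x * y - x - y - 1)
      (3 * (2 + II K) * (1 - 3 * II K) - (2 + II K) - (1 - 3 * II K) - 1) :=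
      ((((c3.mul h cx).mul h cy).sub h cx).sub h cy).sub h c1
    have e : 3 * (2 + II K) * (1 - 3 * II K) - (2 + II K) - (1 - 3 * II K) - 1 =
        ((11 : ℤ) : K) + ((-13 : ℤ) : K) * II K := by
      push_cast
      linear_combination (-9 : K) * hI
    rw [e] at this
    exact this
  have nD : ‖sD x y‖ = 1 := cD.norm_one h (norm_eq h hπq _ _ (by norm_num))
  have cS : Cg (sS x y) (4 - 2 * II K) := by
    have : Cg (x + y + 1) ((2 + II K) + (1 - 3 * II K) + 1) := (cx.add h cy).add h c1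
    have e : (2 + II K) + (1 - 3 * II K) + 1 = 4 - 2 * II K := by ring
    rw [e] at this
    exact this
  have hD0 : sD x y ≠ 0 := by intro h0; rw [h0] at nD; simp at nD
  constructor
  · have e : sx x y = (sD x y - 2 * sS x y * (x - 1)) / sD x y := by
      unfold sx rho
      field_simp
      ring
    rw [e]
    apply Cg.div h cI.l nD
    have key := (((cD.sub h ((c2.mul h cS).mul h (cx.sub h c1))).sub h (cI.mul h cD))).s
    have n1 := norm_lt h hπq (-14) (-28) (by norm_num) (by norm_num)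
    have := lt_add h key n1
    convert this using 2
    push_cast
    linear_combination (17 : K) * hI
  · have e : sy x y = (sD x y - 2 * sS x y * (y - 1)) / sD x y := by
      unfold sy rho
      field_simp
      ring
    rw [e]
    apply Cg.div h (h.norm_ofNat_le 4) nD
    have key := (((cD.sub h ((c2.mul h cS).mul h (cy.sub h c1))).sub h ((Cg.num h 4).mul h cD))).s
    have n1 := norm_lt h hπq (-21) (63) (by norm_num) (by norm_num)
    have := lt_add h key n1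
    convert this using 2
    push_cast
    linear_combination (-12 : K) * hI

end TRG

end GWA
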